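import Mathlib

/-! Binary expansions in a base below the golden ratio have no unique expansion except the two
constant ones. -/

set_option autoImplicit false

namespace Pool.Agent.KS6_56.UA

variable {lam : ℝ}

/-- the value of a digit -/
def dv (b : Fin 2) : ℝ := if b = 0 then 0 else 1

@[simp] lemma dv_zero : dv 0 = 0 := rfl
@[simp] lemma dv_one : dv 1 = 1 := rfl

lemma dv_nonneg (b : Fin 2) : 0 ≤ dv b := by fin_cases b <;> simp
lemma dv_le_one (b : Fin 2) : dv b ≤ 1 := by fin_cases b <;> simp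

/-- the sequence `c` is an expansion of `x` -/
def IsExp (lam : ℝ) (c : ℕ → Fin 2) (x : ℝ) : Prop :=
  HasSum (fun n => ((1 - lam) * lam ^ n) * dv (c n)) x

lemma summ (h0 : 0 < lam) (h1 : lam < 1) (c : ℕ → Fin 2) :
    Summable (fun n => ((1 - lam) * lam ^ n) * dv (c n)) := by
  refine Summable.of_nonneg_of_le (fun n => ?_) (fun n => ?_)
    (summable_geometric_of_lt_one h0.le h1)
  · exact mul_nonneg (mul_nonneg (by linarith) (pow_nonneg h0.le n)) (dv_nonneg _)
  · have h2 := pow_nonneg h0.le n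
    calc ((1 - lam) * lam ^ n) * dv (c n) ≤ ((1 - lam) * lam ^ n) * 1 :=
          mul_le_mul_of_nonneg_left (dv_le_one _) (mul_nonneg (by linarith) h2)
      _ ≤ lam ^ n := by nlinarith

/-- prepend a digit -/
def pre (b : Fin 2) (c : ℕ → Fin 2) : ℕ → Fin 2
  | 0 => b
  | n + 1 => c n

lemma isExp_pre (h0 : 0 < lam) (h1 : lam < 1) {c : ℕ → Fin 2} {x : ℝ} (b : Fin 2)
    (h : IsExp lam c x) : IsExp lam (pre b c) ((1 - lam) * dv b + lam * x) := by
  unfold IsExp at *
  have h2 := h.mul_left lam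
  have h3 : HasSum (fun n => ((1 - lam) * lam ^ (n + 1)) * dv (pre b c (n + 1))) (lam * x) := by
    refine h2.congr_fun ?_
    intro n
    simp only [pre]
    ring
  have h4 := (hasSum_nat_add_iff' (f := fun n => ((1 - lam) * lam ^ n) * dv (pre b c n)) 1
    (g := (1 - lam) * dv b + lam * x)).mp
  refine h4 ?_
  simp only [Finset.sum_range_one, pow_zero, mul_one, pre]
  have e : (1 - lam) * dv b + lam * x - (1 - lam) * dv b = lam * x := by ring
  rw [e]
  exact h3

lemma tail_isExp (h0 : 0 < lam) (h1 : lam < 1) (c : ℕ → Fin 2) {x : ℝ} (h : IsExp lam c x) :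
    ∃ y, IsExp lam (fun n => c (n + 1)) y ∧ x = (1 - lam) * dv (c 0) + lam * y := by
  obtain ⟨y, hy⟩ := summ h0 h1 (fun n => c (n + 1))
  refine ⟨y, hy, ?_⟩
  have h2 := isExp_pre h0 h1 (c 0) hy
  have h3 : pre (c 0) (fun n => c (n + 1)) = c := by
    funext n
    cases n <;> rfl
  rw [h3] at h2
  exact h.unique h2

lemma exp_mem (h0 : 0 < lam) (h1 : lam < 1) {c : ℕ → Fin 2} {x : ℝ} (h : IsExp lam c x) :
    0 ≤ x ∧ x ≤ 1 := by
  constructor
  · exact h.nonneg (fun n => mul_nonneg (mul_nonneg (by linarith) (pow_nonneg h0.le n))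
      (dv_nonneg _))
  · have h2 : HasSum (fun n => (1 - lam) * lam ^ n) 1 := by
      have := (hasSum_geometric_of_lt_one h0.le h1).mul_left (1 - lam)
      rwa [mul_inv_cancel₀ (by linarith)] at this
    refine hasSum_le (fun n => ?_) h h2
    calc ((1 - lam) * lam ^ n) * dv (c n) ≤ ((1 - lam) * lam ^ n) * 1 :=
          mul_le_mul_of_nonneg_left (dv_le_one _)
            (mul_nonneg (by linarith) (pow_nonneg h0.le n))
      _ = _ := mul_one _

/-- the orbit of the greedy algorithm -/
noncomputable def orb (lam x : ℝ) : ℕ → ℝ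
  | 0 => x
  | n + 1 => if orb lam x n ≤ lam then orb lam x n / lam else (orb lam x n - (1 - lam)) / lam

/-- the digits of the greedy algorithm -/
noncomputable def dig (lam x : ℝ) (n : ℕ) : Fin 2 := if orb lam x n ≤ lam then 0 else 1

lemma orb_mem (h0 : 0 < lam) (h2 : 1 ≤ 2 * lam) (h1 : lam < 1) {x : ℝ} (hx0 : 0 ≤ x)
    (hx1 : x ≤ 1) (n : ℕ) : 0 ≤ orb lam x n ∧ orb lam x n ≤ 1 := by
  induction n with
  | zero => exact ⟨hx0, hx1⟩
  | succ n ih =>
    unfold orb
    split_ifs with h
    · exact ⟨div_nonneg ih.1 h0.le, by rw [div_le_one h0]; exact h⟩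
    · push Not at h
      refine ⟨div_nonneg (by linarith) h0.le, ?_⟩
      rw [div_le_one h0]
      linarith [ih.2]

lemma orb_step (h0 : 0 < lam) (x : ℝ) (n : ℕ) :
    orb lam x n = (1 - lam) * dv (dig lam x n) + lam * orb lam x (n + 1) := by
  conv_rhs => unfold orb dig
  split_ifs with h
  · rw [dv_zero]; field_simp; ring
  · rw [dv_one]; field_simp; ring

lemma exists_exp (h0 : 0 < lam) (h2 : 1 ≤ 2 * lam) (h1 : lam < 1) {x : ℝ} (hx0 : 0 ≤ x)
    (hx1 : x ≤ 1) : ∃ c, IsExp lam c x := by
  refine ⟨dig lam x, ?_⟩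
  have hpart : ∀ N, x = ∑ n ∈ Finset.range N, ((1 - lam) * lam ^ n) * dv (dig lam x n) +
      lam ^ N * orb lam x N := by
    intro N
    induction N with
    | zero => simp [orb]
    | succ N ih =>
      rw [Finset.sum_range_succ]
      have := orb_step h0 x N
      calc x = ∑ n ∈ Finset.range N, ((1 - lam) * lam ^ n) * dv (dig lam x n) +
            lam ^ N * orb lam x N := ih
        _ = ∑ n ∈ Finset.range N, ((1 - lam) * lam ^ n) * dv (dig lam x n) +
            lam ^ N * ((1 - lam) * dv (dig lam x N) + lam * orb lam x (N + 1)) := by rw [← this]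
        _ = _ := by ring
  have hs := (summ h0 h1 (dig lam x)).hasSum.tendsto_sum_nat
  have hlim : Filter.Tendsto (fun N => lam ^ N * orb lam x N) Filter.atTop (nhds 0) := by
    refine squeeze_zero (fun N => mul_nonneg (pow_nonneg h0.le N) (orb_mem h0 h2 h1 hx0 hx1 N).1)
      (fun N => ?_) (tendsto_pow_atTop_nhds_zero_of_lt_one h0.le h1)
    calc lam ^ N * orb lam x N ≤ lam ^ N * 1 :=
          mul_le_mul_of_nonneg_left (orb_mem h0 h2 h1 hx0 hx1 N).2 (pow_nonneg h0.le N)
      _ = _ := mul_one _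
  have h3 := hs.add hlim
  have h4 : (fun N => ∑ n ∈ Finset.range N, ((1 - lam) * lam ^ n) * dv (dig lam x n) +
      lam ^ N * orb lam x N) = fun _ => x := by
    funext N; exact (hpart N).symm
  rw [h4] at h3
  have h5 := tendsto_nhds_unique tendsto_const_nhds h3
  rw [add_zero] at h5
  have h6 := (summ h0 h1 (dig lam x)).hasSum
  rw [← h5] at h6
  exact h6

/-- uniqueness of an expansion -/
def Uq (lam : ℝ) (c : ℕ → Fin 2) : Prop :=
  ∀ x c', IsExp lam c x → IsExp lam c' x → c' = c

lemma Uq.tail (h0 : 0 < lam) (h1 : lam < 1) {c : ℕ → Fin 2} (h : Uq lam c) :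
    Uq lam (fun n => c (n + 1)) := by
  intro x c' h2 h3
  have h4 := isExp_pre h0 h1 (c 0) h2
  have h5 := isExp_pre h0 h1 (c 0) h3
  have h6 : pre (c 0) (fun n => c (n + 1)) = c := by
    funext n
    cases n <;> rfl
  rw [h6] at h4
  have h7 := h _ _ h4 h5
  funext n
  have := congrFun h7 (n + 1)
  exact this

lemma Uq.step (h0 : 0 < lam) (h1 : lam < 1) (hg : 1 < lam + lam ^ 2) {c : ℕ → Fin 2}
    (h : Uq lam c) : c 0 = c 1 := by
  have h2 : 1 ≤ 2 * lam := by nlinarith
  have hu1 := h.tail h0 h1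
  obtain ⟨x, hx⟩ := summ h0 h1 c
  obtain ⟨y, hy, hxy⟩ := tail_isExp h0 h1 c hx
  have hym := exp_mem h0 h1 hy
  have key0 : ∀ z : ℝ, ∀ c : ℕ → Fin 2, IsExp lam c z → z ≤ lam → Uq lam c → c 0 = 0 := by
    intro z c hz hzl hU
    have hzm := exp_mem h0 h1 hz
    obtain ⟨c', hc'⟩ := exists_exp h0 h2 h1 (x := z / lam) (div_nonneg hzm.1 h0.le)
      (by rw [div_le_one h0]; exact hzl)
    have h3 := isExp_pre h0 h1 0 hc'
    have h4 : (1 - lam) * dv 0 + lam * (z / lam) = z := by
      rw [dv_zero]; field_simp; ring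
    rw [h4] at h3
    have h5 := hU z _ hz h3
    rw [← h5]; rfl
  have key1 : ∀ z : ℝ, ∀ c : ℕ → Fin 2, IsExp lam c z → 1 - lam ≤ z → Uq lam c → c 0 = 1 := by
    intro z c hz hzl hU
    have hzm := exp_mem h0 h1 hz
    obtain ⟨c', hc'⟩ := exists_exp h0 h2 h1 (x := (z - (1 - lam)) / lam)
      (div_nonneg (by linarith) h0.le)
      (by rw [div_le_one h0]; linarith)
    have h3 := isExp_pre h0 h1 1 hc'
    have h4 : (1 - lam) * dv 1 + lam * ((z - (1 - lam)) / lam) = z := by
      rw [dv_one]; field_simp; ring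
    rw [h4] at h3
    have h5 := hU z _ hz h3
    rw [← h5]; rfl
  by_contra hne
  have hc : (c 0 = 0 ∧ c 1 = 1) ∨ (c 0 = 1 ∧ c 1 = 0) := by
    have e0 : c 0 = 0 ∨ c 0 = 1 := by
      rcases Fin.exists_fin_two.mp ⟨c 0, rfl⟩ with h | h
      · left; exact h
      · right; exact h
    have e1 : c 1 = 0 ∨ c 1 = 1 := by
      rcases Fin.exists_fin_two.mp ⟨c 1, rfl⟩ with h | h
      · left; exact h
      · right; exact h
    rcases e0 with e0 | e0 <;> rcases e1 with e1 | e1
    · exact absurd (e0.trans e1.symm) hne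
    · exact Or.inl ⟨e0, e1⟩
    · exact Or.inr ⟨e0, e1⟩
    · exact absurd (e0.trans e1.symm) hne
  rcases hc with ⟨c0, c1⟩ | ⟨c0, c1⟩
  · -- digits 0, 1
    have h3 : lam < y := by
      by_contra hcon
      push Not at hcon
      have := key0 y _ hy hcon hu1
      rw [c1] at this
      exact absurd this (by decide)
    have h4 : 1 - lam ≤ x := by
      rw [hxy, c0, dv_zero]
      nlinarith
    have := key1 x _ hx h4 h
    rw [c0] at this
    exact absurd this (by decide)
  · have h3 : y < 1 - lam := by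
      by_contra hcon
      push Not at hcon
      have := key1 y _ hy hcon hu1
      rw [c1] at this
      exact absurd this (by decide)
    have h4 : x ≤ lam := by
      rw [hxy, c0, dv_one]
      nlinarith
    have := key0 x _ hx h4 h
    rw [c0] at this
    exact absurd this (by decide)

/-- below the golden ratio the only unique expansions are the constant ones -/
theorem uq_const (h0 : 0 < lam) (h1 : lam < 1) (hg : 1 < lam + lam ^ 2) {c : ℕ → Fin 2}
    (h : Uq lam c) : ∀ n, c n = c 0 := by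
  have h2 : ∀ n, Uq lam (fun m => c (m + n)) := by
    intro n
    induction n with
    | zero => simpa using h
    | succ n ih =>
      have := ih.tail h0 h1
      have e : (fun m => c (m + 1 + n)) = fun m => c (m + (n + 1)) := by
        funext m; congr 1; ring
      rwa [e] at this
  intro n
  induction n with
  | zero => rfl
  | succ n ih =>
    have := (h2 n).step h0 h1 hg
    simp only [zero_add] at this
    rw [← ih, this, add_comm]

end Pool.Agent.KS6_56.UA
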