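import Mathlib
import Pool.Agent.KS6_56.UA.Digits
import Pool.Graph.R_pool_sql_team_seeded_620a6dc7.H429P.Final

/-! The prism over a configuration of points. -/

set_option autoImplicit false

open H429P

namespace Pool.Agent.KS6_56.UA

variable {d k : ℕ}

/-- the point of `ℝ^(d+1)` with first coordinate `b` and remaining coordinates `x` -/
noncomputable def pc (b : ℝ) (x : EuclideanSpace ℝ (Fin d)) : EuclideanSpace ℝ (Fin (d + 1)) :=
  WithLp.toLp 2 (Fin.cons b x)

/-- the remaining coordinates -/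
noncomputable def tl (x : EuclideanSpace ℝ (Fin (d + 1))) : EuclideanSpace ℝ (Fin d) :=
  WithLp.toLp 2 (fun i => x i.succ)

@[simp] lemma pc_zero (b : ℝ) (x : EuclideanSpace ℝ (Fin d)) : pc b x 0 = b := rfl
@[simp] lemma pc_succ (b : ℝ) (x : EuclideanSpace ℝ (Fin d)) (i : Fin d) :
    pc b x i.succ = x i := rfl
@[simp] lemma tl_apply (x : EuclideanSpace ℝ (Fin (d + 1))) (i : Fin d) : tl x i = x i.succ := rfl

lemma tl_pc (b : ℝ) (x : EuclideanSpace ℝ (Fin d)) : tl (pc b x) = x := by
  ext i; simp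

lemma ext_pc {x y : EuclideanSpace ℝ (Fin (d + 1))} (h0 : x 0 = y 0) (h : tl x = tl y) :
    x = y := by
  ext i
  refine Fin.cases h0 (fun j => ?_) i
  have := congrArg (fun z : EuclideanSpace ℝ (Fin d) => z j) h
  simpa using this

lemma tl_add (x y : EuclideanSpace ℝ (Fin (d + 1))) : tl (x + y) = tl x + tl y := by
  ext i; simp

lemma tl_smul (a : ℝ) (x : EuclideanSpace ℝ (Fin (d + 1))) : tl (a • x) = a • tl x := by
  ext i; simp

/-- sums in Euclidean space are coordinatewise -/
lemma hasSum_iff {m : ℕ} {f : ℕ → EuclideanSpace ℝ (Fin m)} {x : EuclideanSpace ℝ (Fin m)} :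
    HasSum f x ↔ ∀ i, HasSum (fun n => f n i) (x i) := by
  have h := (PiLp.continuousLinearEquiv 2 ℝ (fun _ : Fin m => ℝ)).hasSum (f := f)
    (L := SummationFilter.unconditional ℕ)
    (y := WithLp.ofLp x)
  have h2 : (PiLp.continuousLinearEquiv 2 ℝ (fun _ : Fin m => ℝ)).symm (WithLp.ofLp x) = x := rfl
  rw [h2] at h
  rw [← h, Pi.hasSum]
  rfl

/-- the vertices of the prism, indexed by pairs -/
noncomputable def pr (p : Fin k → EuclideanSpace ℝ (Fin d)) (j : Fin k × Fin 2) :
    EuclideanSpace ℝ (Fin (d + 1)) := pc (dv j.2) (p j.1)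

/-- the vertices of the prism -/
noncomputable def prism (p : Fin k → EuclideanSpace ℝ (Fin d)) (j : Fin (k * 2)) :
    EuclideanSpace ℝ (Fin (d + 1)) := pr p (finProdFinEquiv.symm j)

lemma range_prism (p : Fin k → EuclideanSpace ℝ (Fin d)) :
    Set.range (prism p) = Set.range (pr p) := by
  have h : prism p = pr p ∘ finProdFinEquiv.symm := rfl
  rw [h, (finProdFinEquiv (m := k) (n := 2)).symm.surjective.range_comp]

lemma dv_inj : Function.Injective dv := by
  intro a b h
  fin_cases a <;> fin_cases b <;> simp_all [dv]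

lemma pr_inj {p : Fin k → EuclideanSpace ℝ (Fin d)} (hp : Function.Injective p) :
    Function.Injective (pr p) := by
  intro a b h
  have h0 := congrArg (fun z : EuclideanSpace ℝ (Fin (d + 1)) => z 0) h
  have h1 := congrArg tl h
  unfold pr at h0 h1
  rw [tl_pc, tl_pc] at h1
  exact Prod.ext (hp h1) (dv_inj (by simpa using h0))

/-- addresses in the prism are pairs of addresses -/
lemma isAddress_prism {p : Fin k → EuclideanSpace ℝ (Fin d)} {lam : ℝ} {e : ℕ → Fin (k * 2)}
    {x : EuclideanSpace ℝ (Fin (d + 1))} :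
    IsAddress (prism p) lam e x ↔
      IsAddress p lam (fun n => (finProdFinEquiv.symm (e n)).1) (tl x) ∧
      IsExp lam (fun n => (finProdFinEquiv.symm (e n)).2) (x 0) := by
  unfold IsAddress IsExp
  rw [hasSum_iff, hasSum_iff]
  constructor
  · intro h
    exact ⟨fun i => h i.succ, h 0⟩
  · rintro ⟨h1, h2⟩ i
    refine Fin.cases h2 (fun j => h1 j) i

lemma prism_vertices {p : Fin k → EuclideanSpace ℝ (Fin d)} (hp : IsVertices p) :
    IsVertices (prism p) := by
  obtain ⟨hinj, hext⟩ := hp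
  refine ⟨(pr_inj hinj).comp (finProdFinEquiv (m := k) (n := 2)).symm.injective, ?_⟩
  refine Set.Subset.antisymm extremePoints_convexHull_subset ?_
  rw [range_prism]
  -- the hull is contained in the prism over the hull
  have hconv : Convex ℝ {x : EuclideanSpace ℝ (Fin (d + 1)) |
      tl x ∈ convexHull ℝ (Set.range p) ∧ 0 ≤ x 0 ∧ x 0 ≤ 1} := by
    intro x hx y hy a b ha hb hab
    obtain ⟨hx1, hx2, hx3⟩ := hx
    obtain ⟨hy1, hy2, hy3⟩ := hy
    refine ⟨?_, ?_, ?_⟩
    · rw [tl_add, tl_smul, tl_smul]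
      exact convex_convexHull ℝ _ hx1 hy1 ha hb hab
    · show 0 ≤ a * x 0 + b * y 0
      positivity
    · show a * x 0 + b * y 0 ≤ 1
      nlinarith
  have hsub : convexHull ℝ (Set.range (pr p)) ⊆ {x : EuclideanSpace ℝ (Fin (d + 1)) |
      tl x ∈ convexHull ℝ (Set.range p) ∧ 0 ≤ x 0 ∧ x 0 ≤ 1} := by
    refine convexHull_min ?_ hconv
    rintro _ ⟨j, rfl⟩
    refine ⟨?_, dv_nonneg _, dv_le_one _⟩
    unfold pr
    rw [tl_pc]
    exact subset_convexHull ℝ _ ⟨j.1, rfl⟩
  rintro _ ⟨j, rfl⟩
  rw [mem_extremePoints]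
  refine ⟨subset_convexHull ℝ _ ⟨j, rfl⟩, ?_⟩
  intro x hx y hy hz
  obtain ⟨hx1, hx2, hx3⟩ := hsub hx
  obtain ⟨hy1, hy2, hy3⟩ := hsub hy
  have hj : p j.1 ∈ (convexHull ℝ (Set.range p)).extremePoints ℝ := by
    rw [hext]; exact ⟨j.1, rfl⟩
  rw [mem_extremePoints] at hj
  obtain ⟨a, b, ha, hb, hab, hxy⟩ := hz
  have ht : a • tl x + b • tl y = p j.1 := by
    rw [← tl_smul, ← tl_smul, ← tl_add, hxy]
    unfold pr
    rw [tl_pc]
  have h2 := hj.2 _ hx1 _ hy1 ⟨a, b, ha, hb, hab, ht⟩
  have h0 : a * x 0 + b * y 0 = dv j.2 := by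
    have := congrArg (fun z : EuclideanSpace ℝ (Fin (d + 1)) => z 0) hxy
    simpa [pr] using this
  have h3 : x 0 = dv j.2 ∧ y 0 = dv j.2 := by
    have hj2 : j.2 = 0 ∨ j.2 = 1 := by
      rcases Fin.exists_fin_two.mp ⟨j.2, rfl⟩ with h | h
      · left; exact h
      · right; exact h
    rcases hj2 with h | h
    · rw [h, dv_zero] at h0 ⊢
      constructor <;> nlinarith
    · rw [h, dv_one] at h0 ⊢
      constructor <;> nlinarith
  constructor
  · refine ext_pc ?_ ?_
    · rw [h3.1]; rfl
    · rw [h2.1]; unfold pr; rw [tl_pc]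
  · refine ext_pc ?_ ?_
    · rw [h3.2]; rfl
    · rw [h2.2]; unfold pr; rw [tl_pc]

/-- no unique address but at the vertices -/
def Low (p : Fin k → EuclideanSpace ℝ (Fin d)) (lam : ℝ) : Prop :=
  ∀ x, (∃! e, IsAddress p lam e x) → x ∈ Set.range p

/-- a unique address off the vertices -/
def High (p : Fin k → EuclideanSpace ℝ (Fin d)) (lam : ℝ) : Prop :=
  ∃ x, x ∉ Set.range p ∧ ∃! e, IsAddress p lam e x

lemma split_eq {e e' : ℕ → Fin (k * 2)}
    (h1 : (fun n => (finProdFinEquiv.symm (e n)).1) = fun n => (finProdFinEquiv.symm (e' n)).1)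
    (h2 : (fun n => (finProdFinEquiv.symm (e n)).2) = fun n => (finProdFinEquiv.symm (e' n)).2) :
    e = e' := by
  funext n
  apply (finProdFinEquiv (m := k) (n := 2)).symm.injective
  exact Prod.ext (congrFun h1 n) (congrFun h2 n)

lemma dv_sum {lam : ℝ} (h0 : 0 < lam) (h1 : lam < 1) (b : Fin 2) :
    IsExp lam (fun _ => b) (dv b) := by
  have := ((hasSum_geometric_of_lt_one h0.le h1).mul_left (1 - lam)).mul_right (dv b)
  rwa [mul_inv_cancel₀ (by linarith), one_mul] at this

lemma low_prism {p : Fin k → EuclideanSpace ℝ (Fin d)} {lam : ℝ} (h0 : 0 < lam) (h1 : lam < 1)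
    (hg : 1 < lam + lam ^ 2) (h : Low p lam) : Low (prism p) lam := by
  rintro x ⟨e, he, hu⟩
  have he2 := isAddress_prism.mp he
  -- both components are unique
  have u1 : ∃! e, IsAddress p lam e (tl x) := by
    refine ⟨_, he2.1, ?_⟩
    intro e1 he1
    have h3 := hu (fun n => finProdFinEquiv (e1 n, (finProdFinEquiv.symm (e n)).2)) (by
      refine isAddress_prism.mpr ⟨?_, ?_⟩
      · simpa using he1
      · simpa using he2.2)
    funext n
    have h4 := congrFun h3 n
    rw [← h4]
    simp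
  have u2 : Uq lam (fun n => (finProdFinEquiv.symm (e n)).2) := by
    intro z c' hz hc'
    have hzx : z = x 0 := hz.unique he2.2
    subst hzx
    have h3 := hu (fun n => finProdFinEquiv ((finProdFinEquiv.symm (e n)).1, c' n)) (by
      refine isAddress_prism.mpr ⟨?_, ?_⟩
      · simpa using he2.1
      · simpa using hc')
    funext n
    have h4 := congrFun h3 n
    rw [← h4]
    simp
  obtain ⟨i, hi⟩ := h _ u1
  have hc := uq_const h0 h1 hg u2
  have hx0 : x 0 = dv (finProdFinEquiv.symm (e 0)).2 := by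
    have h5 : (fun n => (finProdFinEquiv.symm (e n)).2) =
        fun _ => (finProdFinEquiv.symm (e 0)).2 := by
      funext n; exact hc n
    have h6 := he2.2
    rw [h5] at h6
    exact h6.unique (dv_sum h0 h1 _)
  rw [range_prism]
  refine ⟨(i, (finProdFinEquiv.symm (e 0)).2), ?_⟩
  refine ext_pc ?_ ?_
  · rw [hx0]; rfl
  · unfold pr
    rw [tl_pc]
    exact hi

lemma high_prism {p : Fin k → EuclideanSpace ℝ (Fin d)} {lam : ℝ} (h0 : 0 < lam) (h1 : lam < 1)
    (h : High p lam) : High (prism p) lam := by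
  obtain ⟨x, hx, e, he, hu⟩ := h
  refine ⟨pc 0 x, ?_, ?_⟩
  · rw [range_prism]
    rintro ⟨j, hj⟩
    apply hx
    have := congrArg tl hj
    unfold pr at this
    rw [tl_pc, tl_pc] at this
    exact ⟨j.1, this⟩
  · refine ⟨fun n => finProdFinEquiv (e n, 0), ?_, ?_⟩
    · refine isAddress_prism.mpr ⟨?_, ?_⟩
      · rw [tl_pc]; simpa using he
      · simpa using dv_sum h0 h1 0
    · intro e' he'
      have h2 := isAddress_prism.mp he'
      rw [tl_pc] at h2
      have h3 := hu _ h2.1
      have h4 : ∀ n, (finProdFinEquiv.symm (e' n)).2 = 0 := by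
        intro n
        by_contra hcon
        have h5 : (finProdFinEquiv.symm (e' n)).2 = 1 := by
          rcases Fin.exists_fin_two.mp ⟨(finProdFinEquiv.symm (e' n)).2, rfl⟩ with h | h
          · exact absurd h hcon
          · exact h
        have h6 : ((1 - lam) * lam ^ n) * dv (finProdFinEquiv.symm (e' n)).2 ≤ pc 0 x 0 :=
          le_hasSum h2.2 n (fun m _ => mul_nonneg (mul_nonneg (by linarith)
            (pow_nonneg h0.le m)) (dv_nonneg _))
        rw [h5, dv_one, pc_zero, mul_one] at h6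
        have h7 : 0 < (1 - lam) * lam ^ n := mul_pos (by linarith) (pow_pos h0 n)
        linarith
      apply split_eq
      · rw [h3]
        simp
      · funext n
        rw [h4 n]
        simp

/-- Every point of the space is an affine combination of the points `p i`: the polytope which they
span has nonempty interior. -/
def FullDim (p : Fin k → EuclideanSpace ℝ (Fin d)) : Prop :=
  ∀ x, ∃ c : Fin k → ℝ, ∑ i, c i = 1 ∧ ∑ i, c i • p i = x

lemma fullDim_prism {p : Fin k → EuclideanSpace ℝ (Fin d)} (h : FullDim p) :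
    FullDim (prism p) := by
  intro x
  obtain ⟨c, hc1, hc2⟩ := h (tl x)
  refine ⟨fun j => c (finProdFinEquiv.symm j).1 *
    (if (finProdFinEquiv.symm j).2 = 0 then 1 - x 0 else x 0), ?_, ?_⟩
  · rw [(finProdFinEquiv (m := k) (n := 2)).symm.sum_comp
      (fun j : Fin k × Fin 2 => c j.1 * (if j.2 = 0 then 1 - x 0 else x 0)),
      Fintype.sum_prod_type]
    simp only [Fin.sum_univ_two, if_true, Fin.isValue, one_ne_zero, if_false]
    refine Eq.trans ?_ hc1
    refine Finset.sum_congr rfl fun i _ => ?_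
    ring
  · unfold prism
    rw [(finProdFinEquiv (m := k) (n := 2)).symm.sum_comp
      (fun j : Fin k × Fin 2 => (c j.1 * (if j.2 = 0 then 1 - x 0 else x 0)) • pr p j),
      Fintype.sum_prod_type]
    simp only [Fin.sum_univ_two, if_true, Fin.isValue, one_ne_zero, if_false]
    refine ext_pc ?_ ?_
    · have h2 : (∑ i : Fin k, ((c i * (1 - x 0)) • pr p (i, 0) +
          (c i * x 0) • pr p (i, 1))) 0 = ∑ i : Fin k, c i * x 0 := by
        rw [WithLp.ofLp_sum, Finset.sum_apply]
        refine Finset.sum_congr rfl fun i _ => ?_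
        simp [pr]
      rw [h2, ← Finset.sum_mul, hc1, one_mul]
    · have h3 : tl (∑ i : Fin k, ((c i * (1 - x 0)) • pr p (i, 0) +
          (c i * x 0) • pr p (i, 1))) = ∑ i : Fin k, c i • p i := by
        ext j
        rw [tl_apply, WithLp.ofLp_sum, Finset.sum_apply, WithLp.ofLp_sum, Finset.sum_apply]
        refine Finset.sum_congr rfl fun i _ => ?_
        simp [pr]
        ring
      rw [h3, hc2]

lemma fullDim_vtx : FullDim vtx := by
  intro x
  refine ⟨![1 - x 0 - x 1, x 0, 0, x 1], ?_, ?_⟩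
  · simp only [Fin.sum_univ_four, Matrix.cons_val]
    ring
  · simp only [Fin.sum_univ_four, Matrix.cons_val]
    refine ext2 ?_ ?_
    · simp [vtx_0, dg0, dg1, dg3, X, wx]
    · simp [vtx_1, dg0, dg1, dg3, Y, wy]

/-- configurations without a threshold in every dimension -/
theorem exists_config (m : ℕ) : ∃ p : Fin (2 ^ (m + 2)) → EuclideanSpace ℝ (Fin (m + 2)),
    IsVertices p ∧ FullDim p ∧ Low p (19 / 30) ∧ High p (7 / 11) := by
  induction m with
  | zero =>
    refine ⟨vtx, vtx_vertices, fullDim_vtx, fun x hx => low hx, xs, xs_not_vtx, high⟩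
  | succ m ih =>
    obtain ⟨p, h1, h4, h2, h3⟩ := ih
    exact ⟨prism p, prism_vertices h1, fullDim_prism h4,
      low_prism (by norm_num) (by norm_num) (by norm_num) h2,
      high_prism (by norm_num) (by norm_num) h3⟩

end Pool.Agent.KS6_56.UA
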